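import Mathlib
import Pool.Agent.H63.SG.P0
import Pool.Agent.H63.SG.Q0
import Pool.Agent.H63.SG.Sh
import Pool.Agent.H63.SG.Om

/-!
# Sun's conjecture on shifted Goldbach and Lemoine representations: one prime and three almost primes, for all large `n`
-/

set_option autoImplicit false

open Finset

noncomputable section

namespace Pool.Agent.Results.MP_9c53e9_nt.AlmostPrimeVersion

/-- `c(n) = (3 - (-1)^n)/2`: `c(n) = 1` if `n` is even and `c(n) = 2` if `n` is odd. -/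
def c (n : ℕ) : ℕ := if Even n then 1 else 2

/-- The four numbers `p`, `p - d₁`, `q`, `q + d₂`. -/
def four (d₁ d₂ : ℤ) (p q : ℕ) : Fin 4 → ℤ := ![(p : ℤ), (p : ℤ) - d₁, (q : ℤ), (q : ℤ) + d₂]

/-- `m` is positive, it has at most `r` prime factors (counted with multiplicity), and each of them is larger than `n ^ δ`. -/
def AlmostPrime (r : ℕ) (δ : ℝ) (n : ℕ) (m : ℤ) : Prop :=
  0 < m ∧ m.toNat.primeFactorsList.length ≤ r ∧ ∀ l : ℕ, l.Prime → l ∣ m.toNat → (n : ℝ) ^ δ < l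

/-- The pairs `(p, q)` with `n = p + c(n) q` and `p > q` such that each of the four numbers `p`, `p - d₁`, `q`, `q + d₂`
is positive and has at most `r` prime factors, all larger than `n ^ δ`. -/
def representations (r : ℕ) (δ : ℝ) (d₁ d₂ : ℤ) (n : ℕ) : Set (ℕ × ℕ) :=
  {e | n = e.1 + c n * e.2 ∧ e.2 < e.1 ∧ ∀ i, AlmostPrime r δ n (four d₁ d₂ e.1 e.2 i)}

lemma c_eq (n : ℕ) : c n = Pool.Agent.H63.SG.cc n := by
  unfold c Pool.Agent.H63.SG.cc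
  simp only [Nat.even_iff]

lemma rep_finite (r : ℕ) (δ : ℝ) (d₁ d₂ : ℤ) (n : ℕ) : (representations r δ d₁ d₂ n).Finite := by
  apply Set.Finite.subset ((range (n + 1) ×ˢ range (n + 1) : Finset (ℕ × ℕ)).finite_toSet)
  rintro ⟨p, q⟩ ⟨h1, h2, -⟩
  simp only at h1 h2
  rw [mem_coe, mem_product, mem_range, mem_range]
  exact ⟨by show p < n + 1; omega, by show q < n + 1; omega⟩

lemma conv {r : ℕ} {δ δ' : ℝ} {d₁ d₂ : ℤ} {n : ℕ} {e : ℕ × ℕ} (hδ' : 0 < δ') (hδδ : δ' ≤ δ) (hr : ⌊2 / δ'⌋₊ ≤ r)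
    (hn2 : d₁.natAbs + d₂.natAbs + 2 ≤ n) (k1 : n = e.1 + Pool.Agent.H63.SG.cc n * e.2)
    (k2 : e.2 + (d₁.natAbs + d₂.natAbs + 1) ≤ e.1) (k3 : d₁.natAbs + d₂.natAbs + 1 ≤ e.2)
    (k5 : ∀ i, ∀ l : ℕ, l.Prime → (l : ℤ) ∣ Pool.Agent.H63.SG.Quad d₁ d₂ e.1 e.2 i → (n : ℝ) ^ δ < l) :
    e ∈ representations r δ' d₁ d₂ n ∧ ∀ i, (four d₁ d₂ e.1 e.2 i).toNat = (four d₁ d₂ e.1 e.2 i).natAbs := by
  have hn1 : (1 : ℝ) < n := by
    have : 1 < n := by omega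
    exact_mod_cast this
  have hcn : e.2 ≤ Pool.Agent.H63.SG.cc n * e.2 := by
    apply Nat.le_mul_of_pos_left
    unfold Pool.Agent.H63.SG.cc
    split_ifs <;> norm_num
  have hbd : ∀ i, 0 < four d₁ d₂ e.1 e.2 i ∧ four d₁ d₂ e.1 e.2 i ≤ n + d₁.natAbs + d₂.natAbs := by
    intro i
    fin_cases i
    · show 0 < ((e.1 : ℕ) : ℤ) ∧ ((e.1 : ℕ) : ℤ) ≤ n + d₁.natAbs + d₂.natAbs
      omega
    · show 0 < ((e.1 : ℕ) : ℤ) - d₁ ∧ ((e.1 : ℕ) : ℤ) - d₁ ≤ n + d₁.natAbs + d₂.natAbs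
      omega
    · show 0 < ((e.2 : ℕ) : ℤ) ∧ ((e.2 : ℕ) : ℤ) ≤ n + d₁.natAbs + d₂.natAbs
      omega
    · show 0 < ((e.2 : ℕ) : ℤ) + d₂ ∧ ((e.2 : ℕ) : ℤ) + d₂ ≤ n + d₁.natAbs + d₂.natAbs
      omega
  have hab : ∀ i, (four d₁ d₂ e.1 e.2 i).toNat = (four d₁ d₂ e.1 e.2 i).natAbs := by
    intro i
    have := (hbd i).1
    omega
  refine ⟨⟨by rw [c_eq]; exact k1, by omega, fun i => ⟨(hbd i).1, ?_, ?_⟩⟩, hab⟩
  · refine le_trans ?_ hr
    refine Pool.Agent.H63.SG.Om_len hn1 hδ' ?_ ?_ ?_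
    · have := (hbd i).1
      omega
    · have h3 := (hbd i).2
      have h4 : (four d₁ d₂ e.1 e.2 i).toNat ≤ n ^ 2 := by
        have h5 : (four d₁ d₂ e.1 e.2 i).toNat ≤ n + d₁.natAbs + d₂.natAbs := by omega
        have h6 : n + d₁.natAbs + d₂.natAbs ≤ n * n := by nlinarith
        rw [pow_two]
        omega
      exact_mod_cast h4
    · intro l hl hl2
      rw [hab i] at hl2
      have h3 := k5 i l hl (Int.natCast_dvd.2 hl2)
      exact (Real.rpow_le_rpow_of_exponent_le hn1.le hδδ).trans_lt h3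
  · intro l hl hl2
    rw [hab i] at hl2
    have h3 := k5 i l hl (Int.natCast_dvd.2 hl2)
    exact (Real.rpow_le_rpow_of_exponent_le hn1.le hδδ).trans_lt h3

lemma part1 {j : Fin 4} (h : Pool.Agent.H63.SG.Tgt j) : ∃ (δ κ : ℝ), 0 < δ ∧ 0 < κ ∧ ∀ (δ' : ℝ) (r : ℕ), 0 < δ' → δ' ≤ δ → ⌊2 / δ'⌋₊ ≤ r →
    ∃ N C : ℕ, ∀ d₁ d₂ : ℤ, (6 : ℤ) ∣ d₁ → (6 : ℤ) ∣ d₂ → ∀ n : ℕ, N + C * (d₁.natAbs + d₂.natAbs) ≤ n →
      κ * (n / Real.log n ^ 4) ≤
        ({e ∈ representations r δ' d₁ d₂ n | (four d₁ d₂ e.1 e.2 j).toNat.Prime}.ncard : ℝ) := by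
  obtain ⟨δ, hδ, κ, hκ, N, C, H⟩ := h
  refine ⟨δ, κ, hδ, hκ, fun δ' r hδ' hδδ hr => ⟨N + C + 2, 2 * C + 1, fun d₁ d₂ h1 h2 n hn => ?_⟩⟩
  have hn0 : N + C * (d₁.natAbs + d₂.natAbs + 1 + d₁.natAbs + d₂.natAbs) ≤ n := by
    refine le_trans ?_ hn
    have e1 : (2 * C + 1) * (d₁.natAbs + d₂.natAbs) = C * (d₁.natAbs + d₂.natAbs) + C * (d₁.natAbs + d₂.natAbs) + (d₁.natAbs + d₂.natAbs) := by
      ring
    have e2 : C * (d₁.natAbs + d₂.natAbs + 1 + d₁.natAbs + d₂.natAbs) = C * (d₁.natAbs + d₂.natAbs) + C * (d₁.natAbs + d₂.natAbs) + C := by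
      ring
    rw [e1, e2]
    omega
  have hn2 : d₁.natAbs + d₂.natAbs + 2 ≤ n := by
    refine le_trans ?_ hn
    have e1 : (2 * C + 1) * (d₁.natAbs + d₂.natAbs) = 2 * C * (d₁.natAbs + d₂.natAbs) + (d₁.natAbs + d₂.natAbs) := by
      ring
    rw [e1]
    omega
  obtain ⟨F, hF1, hF2⟩ := H (d₁.natAbs + d₂.natAbs + 1) d₁ d₂ h1 h2 n hn0
  refine hF1.trans ?_
  rw [Nat.cast_le, ← Set.ncard_coe_finset]
  apply Set.ncard_le_ncard
  swap
  · exact (rep_finite r δ' d₁ d₂ n).subset (fun e he => he.1)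
  intro e he
  obtain ⟨k1, k2, k3, k4, k5⟩ := hF2 e he
  obtain ⟨m1, m2⟩ := conv hδ' hδδ hr hn2 k1 k2 k3 k5
  refine ⟨m1, ?_⟩
  show (four d₁ d₂ e.1 e.2 j).toNat.Prime
  rw [m2 j]
  exact k4

/-- There are absolute constants `r`, `δ > 0`, `κ > 0`, `N`, `C` with the following property. For all integers `d₁`, `d₂`
divisible by `6`, all `n ≥ N + C (|d₁| + |d₂|)` and each `j`, the number `n` has at least `κ n / (log n)^4` representations
`n = p + c(n) q`, `p > q`, in which each of the four numbers `p`, `p - d₁`, `q`, `q + d₂` is positive with at most `r` prime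
factors, all larger than `n ^ δ`, and the `j`-th of the four numbers is prime. -/
theorem result : ∃ (r : ℕ) (δ κ : ℝ) (N C : ℕ), 0 < δ ∧ 0 < κ ∧ ∀ d₁ d₂ : ℤ, (6 : ℤ) ∣ d₁ → (6 : ℤ) ∣ d₂ →
    ∀ n : ℕ, N + C * (d₁.natAbs + d₂.natAbs) ≤ n → ∀ j : Fin 4, κ * (n / Real.log n ^ 4) ≤
      ({e ∈ representations r δ d₁ d₂ n | (four d₁ d₂ e.1 e.2 j).toNat.Prime}.ncard : ℝ) := by
  have hT : ∀ j : Fin 4, Pool.Agent.H63.SG.Tgt j := by
    intro j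
    fin_cases j
    · exact Pool.Agent.H63.SG.P0
    · exact Pool.Agent.H63.SG.Sh1 Pool.Agent.H63.SG.P0
    · exact Pool.Agent.H63.SG.Q0
    · exact Pool.Agent.H63.SG.Sh3 Pool.Agent.H63.SG.Q0
  choose δ κ hδ hκ H using fun j => part1 (hT j)
  obtain ⟨δ₀, hδ₀, hδ₁⟩ : ∃ δ₀ : ℝ, 0 < δ₀ ∧ ∀ j, δ₀ ≤ δ j :=
    ⟨min (min (δ 0) (δ 1)) (min (δ 2) (δ 3)),
      lt_min (lt_min (hδ 0) (hδ 1)) (lt_min (hδ 2) (hδ 3)), fun j => by
      fin_cases j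
      · exact (min_le_left _ _).trans (min_le_left _ _)
      · exact (min_le_left _ _).trans (min_le_right _ _)
      · exact (min_le_right _ _).trans (min_le_left _ _)
      · exact (min_le_right _ _).trans (min_le_right _ _)⟩
  obtain ⟨κ₀, hκ₀, hκ₁⟩ : ∃ κ₀ : ℝ, 0 < κ₀ ∧ ∀ j, κ₀ ≤ κ j :=
    ⟨min (min (κ 0) (κ 1)) (min (κ 2) (κ 3)), lt_min (lt_min (hκ 0) (hκ 1)) (lt_min (hκ 2) (hκ 3)), fun j => by
      fin_cases j
      · exact (min_le_left _ _).trans (min_le_left _ _)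
      · exact (min_le_left _ _).trans (min_le_right _ _)
      · exact (min_le_right _ _).trans (min_le_left _ _)
      · exact (min_le_right _ _).trans (min_le_right _ _)⟩
  choose N C HN using fun j => H j δ₀ ⌊2 / δ₀⌋₊ hδ₀ (hδ₁ j) le_rfl
  refine ⟨⌊2 / δ₀⌋₊, δ₀, κ₀, N 0 + N 1 + N 2 + N 3, C 0 + C 1 + C 2 + C 3, hδ₀, hκ₀, fun d₁ d₂ h1 h2 n hn j => ?_⟩
  have hNj : N j + C j * (d₁.natAbs + d₂.natAbs) ≤ n := by
    refine le_trans ?_ hn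
    have hN : N j ≤ N 0 + N 1 + N 2 + N 3 := by
      fin_cases j
      · show N 0 ≤ _
        omega
      · show N 1 ≤ _
        omega
      · show N 2 ≤ _
        omega
      · show N 3 ≤ _
        omega
    have hC : C j ≤ C 0 + C 1 + C 2 + C 3 := by
      fin_cases j
      · show C 0 ≤ _
        omega
      · show C 1 ≤ _
        omega
      · show C 2 ≤ _
        omega
      · show C 3 ≤ _
        omega
    exact add_le_add hN (Nat.mul_le_mul_right _ hC)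
  refine le_trans ?_ (HN j d₁ d₂ h1 h2 n hNj)
  refine mul_le_mul_of_nonneg_right (hκ₁ j) ?_
  have : 0 ≤ Real.log n ^ 4 := by positivity
  positivity

end Pool.Agent.Results.MP_9c53e9_nt.AlmostPrimeVersion

end
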