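import Mathlib
import Pool.Agent.H63.SG.FP

/-!
# Sun's conjecture on shifted Goldbach and Lemoine representations: all four numbers prime, on average over the shifts
-/

set_option autoImplicit false

open Finset

noncomputable section

namespace Pool.Agent.Results.MP_9c53e9_nt.FourPrimesOnAverage

/-- `c(n) = (3 - (-1)^n)/2`: `c(n) = 1` if `n` is even and `c(n) = 2` if `n` is odd. -/
def c (n : ℕ) : ℕ := if Even n then 1 else 2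

/-- `n` has an admissible representation for the pair of shifts `d₁`, `d₂`: `n = p + c(n) q` with primes `p > q` such that
`p - d₁` and `q + d₂` are primes, too. -/
def Admissible (d₁ d₂ : ℤ) (n : ℕ) : Prop :=
  ∃ p q p' q' : ℕ, n = p + c n * q ∧ q < p ∧ p.Prime ∧ q.Prime ∧ p'.Prime ∧ q'.Prime ∧
    (p' : ℤ) = (p : ℤ) - d₁ ∧ (q' : ℤ) = (q : ℤ) + d₂

lemma zero₁ {d₁ d₂ : ℤ} {n : ℕ} (h : Admissible d₁ d₂ n) : Admissible 0 d₂ n := by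
  obtain ⟨p, q, p', q', h1, h2, h3, h4, h5, h6, h7, h8⟩ := h
  exact ⟨p, q, p, q', h1, h2, h3, h4, h3, h6, by simp, h8⟩

lemma zero₂ {d₁ d₂ : ℤ} {n : ℕ} (h : Admissible d₁ d₂ n) : Admissible d₁ 0 n := by
  obtain ⟨p, q, p', q', h1, h2, h3, h4, h5, h6, h7, h8⟩ := h
  exact ⟨p, q, p', q, h1, h2, h3, h4, h5, h4, h7, by simp⟩

/-- There are absolute constants `C, β > 0` and `X₀` such that for all `x ≥ X₀` and all `D` with `C log x ≤ D ≤ x / 400`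
there are sets `G₁`, `G₂` of at least `β D` multiples of `6` in `[1, D]` with the following property: for all integers `d₁`,
`d₂` with `d₁ = 0` or `|d₁| ∈ G₁` and `d₂ = 0` or `|d₂| ∈ G₂`, at least `β x` of the even `n ≤ x` and at least `β x` of the
odd `n ≤ x` have a representation `n = p + c(n) q`, `p > q`, in which all four numbers `p`, `q`, `p - d₁`, `q + d₂` are
prime. -/
theorem result : ∃ C β : ℝ, 0 < C ∧ 0 < β ∧ ∃ X₀ : ℕ, ∀ x D : ℕ, X₀ ≤ x → C * Real.log x ≤ D → 400 * D ≤ x →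
    ∃ G₁ G₂ : Finset ℕ, β * D ≤ (G₁.card : ℝ) ∧ β * D ≤ (G₂.card : ℝ) ∧ (∀ e ∈ G₁, 1 ≤ e ∧ e ≤ D ∧ 6 ∣ e) ∧
      (∀ e ∈ G₂, 1 ≤ e ∧ e ≤ D ∧ 6 ∣ e) ∧ ∀ d₁ d₂ : ℤ, (d₁ = 0 ∨ d₁.natAbs ∈ G₁) → (d₂ = 0 ∨ d₂.natAbs ∈ G₂) → ∀ r < 2,
        β * x ≤ ({n : ℕ | n ≤ x ∧ n % 2 = r ∧ Admissible d₁ d₂ n}.ncard : ℝ) := by
  obtain ⟨C, β, hC, hβ, X₀, H⟩ := Pool.Agent.H63.SG.FP
  refine ⟨C, β, hC, hβ, max X₀ 2, fun x D hx hD hDx => ?_⟩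
  obtain ⟨G₁, G₂, hG₁, hG₂, hG₁', hG₂', hH⟩ := H x ((le_max_left _ _).trans hx) D hD hDx
  have hx2 : (2 : ℝ) ≤ x := by exact_mod_cast (le_max_right _ _).trans hx
  have hD0 : (0 : ℝ) < D := lt_of_lt_of_le (mul_pos hC (Real.log_pos (by linarith))) hD
  refine ⟨G₁, G₂, hG₁, hG₂, hG₁', hG₂', ?_⟩
  have hne : ∀ G : Finset ℕ, β * D ≤ (G.card : ℝ) → ∃ e, e ∈ G := by
    intro G hG
    have h1 : 0 < β * (D : ℝ) := mul_pos hβ hD0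
    have h2 : (0 : ℝ) < (G.card : ℝ) := lt_of_lt_of_le h1 hG
    exact card_pos.1 (by exact_mod_cast h2)
  have main : ∀ e₁ ∈ G₁, ∀ e₂ ∈ G₂, ∀ d₁ d₂ : ℤ, (d₁ = e₁ ∨ d₁ = -(e₁ : ℤ)) → (d₂ = e₂ ∨ d₂ = -(e₂ : ℤ)) → ∀ r < 2,
      ∃ S : Finset ℕ, β * x ≤ (S.card : ℝ) ∧ ∀ n ∈ S, n ≤ x ∧ n % 2 = r ∧ Admissible d₁ d₂ n := by
    intro e₁ he₁ e₂ he₂ d₁ d₂ hd₁ hd₂ r hr
    obtain ⟨S, hS1, hS2⟩ := hH e₁ he₁ e₂ he₂ d₁ d₂ hd₁ hd₂ (r + 1) (by omega)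
    refine ⟨S, hS1, fun n hn => ?_⟩
    obtain ⟨m1, m2, p, q, m3, m4, m5, m6, m7, m8⟩ := hS2 n hn
    have hcc : c n = Pool.Agent.H63.SG.cc n := by
      unfold c Pool.Agent.H63.SG.cc
      simp only [Nat.even_iff]
    refine ⟨m1, ?_, p, q, ((p : ℤ) - d₁).toNat, ((q : ℤ) + d₂).toNat, by rw [hcc]; exact m3, m4, m5, m6, m7, m8, ?_, ?_⟩
    · unfold Pool.Agent.H63.SG.cc at m2
      split_ifs at m2 with h <;> omega
    · apply Int.toNat_of_nonneg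
      have := m7.pos
      omega
    · apply Int.toNat_of_nonneg
      have := m8.pos
      omega
  have main2 : ∀ d₁ d₂ : ℤ, (d₁ = 0 ∨ d₁.natAbs ∈ G₁) → (d₂ = 0 ∨ d₂.natAbs ∈ G₂) → ∀ r < 2,
      ∃ S : Finset ℕ, β * x ≤ (S.card : ℝ) ∧ ∀ n ∈ S, n ≤ x ∧ n % 2 = r ∧ Admissible d₁ d₂ n := by
    intro d₁ d₂ h₁ h₂ r hr
    rcases h₁ with rfl | h₁
    · obtain ⟨e₁, he₁⟩ := hne G₁ hG₁
      rcases h₂ with rfl | h₂
      · obtain ⟨e₂, he₂⟩ := hne G₂ hG₂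
        obtain ⟨S, hS1, hS2⟩ := main e₁ he₁ e₂ he₂ e₁ e₂ (Or.inl rfl) (Or.inl rfl) r hr
        exact ⟨S, hS1, fun n hn => ⟨(hS2 n hn).1, (hS2 n hn).2.1, zero₁ (zero₂ (hS2 n hn).2.2)⟩⟩
      · obtain ⟨S, hS1, hS2⟩ := main e₁ he₁ _ h₂ e₁ d₂ (Or.inl rfl) (by omega) r hr
        exact ⟨S, hS1, fun n hn => ⟨(hS2 n hn).1, (hS2 n hn).2.1, zero₁ (hS2 n hn).2.2⟩⟩
    · rcases h₂ with rfl | h₂
      · obtain ⟨e₂, he₂⟩ := hne G₂ hG₂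
        obtain ⟨S, hS1, hS2⟩ := main _ h₁ e₂ he₂ d₁ e₂ (by omega) (Or.inl rfl) r hr
        exact ⟨S, hS1, fun n hn => ⟨(hS2 n hn).1, (hS2 n hn).2.1, zero₂ (hS2 n hn).2.2⟩⟩
      · exact main _ h₁ _ h₂ d₁ d₂ (by omega) (by omega) r hr
  intro d₁ d₂ h₁ h₂ r hr
  obtain ⟨S, hS1, hS2⟩ := main2 d₁ d₂ h₁ h₂ r hr
  refine hS1.trans ?_
  rw [Nat.cast_le, ← Set.ncard_coe_finset]
  apply Set.ncard_le_ncard
  swap
  · exact (range (x + 1)).finite_toSet.subset (fun n hn => by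
      rw [mem_coe, mem_range]
      exact Nat.lt_succ_of_le hn.1)
  intro n hn
  exact hS2 n hn

end Pool.Agent.Results.MP_9c53e9_nt.FourPrimesOnAverage

end
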