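import Mathlib
import Pool.Agent.H63.SG.Om
import Pool.Agent.H63.SG.TP

/-!
# Sun's conjecture on shifted Goldbach and Lemoine representations: three primes, one shift on average, the other arbitrary
-/

set_option autoImplicit false

open Finset

noncomputable section

namespace Pool.Agent.Results.MP_9c53e9_nt.ThreePrimes

/-- `c(n) = (3 - (-1)^n)/2`: `c(n) = 1` if `n` is even and `c(n) = 2` if `n` is odd. -/
def c (n : ℕ) : ℕ := if Even n then 1 else 2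

/-- `m` is positive, it has at most `r` prime factors (counted with multiplicity), and each of them is larger than `n ^ δ`. -/
def AlmostPrime (r : ℕ) (δ : ℝ) (n : ℕ) (m : ℤ) : Prop :=
  0 < m ∧ m.toNat.primeFactorsList.length ≤ r ∧ ∀ l : ℕ, l.Prime → l ∣ m.toNat → (n : ℝ) ^ δ < l

/-- `n = p + c(n) q` with primes `p > q` such that one of the numbers `p - d₁`, `q + d₂` is a prime and the other one is
positive with at most `r` prime factors, all larger than `n ^ δ`. -/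
def Represented (r : ℕ) (δ : ℝ) (d₁ d₂ : ℤ) (n : ℕ) : Prop :=
  ∃ p q : ℕ, p.Prime ∧ q.Prime ∧ n = p + c n * q ∧ q < p ∧
    ((∃ p' : ℕ, p'.Prime ∧ (p' : ℤ) = (p : ℤ) - d₁) ∧ AlmostPrime r δ n ((q : ℤ) + d₂) ∨
      AlmostPrime r δ n ((p : ℤ) - d₁) ∧ (∃ q' : ℕ, q'.Prime ∧ (q' : ℤ) = (q : ℤ) + d₂))

lemma c_eq (n : ℕ) : c n = Pool.Agent.H63.SG.cc n := by
  unfold c Pool.Agent.H63.SG.cc
  simp only [Nat.even_iff]

lemma ap {δ : ℝ} {n : ℕ} {m : ℤ} (hδ : 0 < δ) (hn : 1 < n) (h0 : 0 < m) (h1 : m ≤ n ^ 2)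
    (h2 : ∀ l : ℕ, l.Prime → (l : ℤ) ∣ m → (n : ℝ) ^ δ < l) : AlmostPrime ⌊2 / δ⌋₊ δ n m := by
  have hn1 : (1 : ℝ) < n := by exact_mod_cast hn
  have hab : ((m.toNat : ℕ) : ℤ) = m := Int.toNat_of_nonneg h0.le
  have h3 : ∀ l : ℕ, l.Prime → l ∣ m.toNat → (n : ℝ) ^ δ < l := by
    intro l hl hl2
    apply h2 l hl
    rw [← hab]
    exact Int.natCast_dvd_natCast.2 hl2
  refine ⟨h0, ?_, h3⟩
  refine Pool.Agent.H63.SG.Om_len hn1 hδ ?_ ?_ h3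
  · omega
  · have h4 : m.toNat ≤ n ^ 2 := by
      have : ((m.toNat : ℕ) : ℤ) ≤ ((n ^ 2 : ℕ) : ℤ) := by
        rw [hab]
        exact_mod_cast h1
      exact_mod_cast this
    exact_mod_cast h4

/-- There are absolute constants `r`, `δ, β, C > 0` and `X₀` such that for all `x ≥ X₀` and all `D` with
`C log x ≤ D ≤ x / 400` there are sets `G₁`, `G₂` of at least `β D` multiples of `6` in `[1, D]` with the following property:
for all integers `d₁`, `d₂` divisible by `6`, `|d₁|, |d₂| ≤ x / 400`, such that `|d₁| ∈ G₁` or `|d₂| ∈ G₂`, at least `β x` of the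
even `n ≤ x` and at least `β x` of the odd `n ≤ x` have a representation `n = p + c(n) q`, `p > q`, in which `p`, `q` and one of
the numbers `p - d₁`, `q + d₂` are prime and the other one has at most `r` prime factors, all larger than `n ^ δ`. -/
theorem result : ∃ (r : ℕ) (δ β C : ℝ) (X₀ : ℕ), 0 < δ ∧ 0 < β ∧ 0 < C ∧ ∀ x D : ℕ, X₀ ≤ x → C * Real.log x ≤ D → 400 * D ≤ x →
    ∃ G₁ G₂ : Finset ℕ, β * D ≤ (G₁.card : ℝ) ∧ β * D ≤ (G₂.card : ℝ) ∧ (∀ e ∈ G₁, 1 ≤ e ∧ e ≤ D ∧ 6 ∣ e) ∧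
      (∀ e ∈ G₂, 1 ≤ e ∧ e ≤ D ∧ 6 ∣ e) ∧ ∀ d₁ d₂ : ℤ, (6 : ℤ) ∣ d₁ → (6 : ℤ) ∣ d₂ → 400 * d₁.natAbs ≤ x → 400 * d₂.natAbs ≤ x →
        (d₁.natAbs ∈ G₁ ∨ d₂.natAbs ∈ G₂) → ∀ b < 2,
          β * x ≤ ({n : ℕ | n ≤ x ∧ n % 2 = b ∧ Represented r δ d₁ d₂ n}.ncard : ℝ) := by
  obtain ⟨δ, β, C, hδ, hβ, hC, X0, H⟩ := Pool.Agent.H63.SG.TP
  refine ⟨⌊2 / δ⌋₊, δ, β, C, X0 + 1000, hδ, hβ, hC, fun x D hx hD hDx => ?_⟩
  obtain ⟨G₁, G₂, g1, g2, g3, g4, g5⟩ := H x (by omega) D hD hDx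
  refine ⟨G₁, G₂, g1, g2, g3, g4, fun d₁ d₂ h1 h2 hd₁ hd₂ hor b hb => ?_⟩
  obtain ⟨S, hS1, hS2⟩ := g5 d₁ d₂ h1 h2 hd₁ hd₂ hor (b + 1) (by omega)
  refine hS1.trans ?_
  rw [Nat.cast_le, ← Set.ncard_coe_finset]
  apply Set.ncard_le_ncard
  swap
  · exact (range (x + 1)).finite_toSet.subset (fun n hn => by
      rw [mem_coe, mem_range]
      exact Nat.lt_succ_of_le hn.1)
  intro n hn
  obtain ⟨m0, m1, m2, p, q, m3, m4, m5, m6, m7, m8, m9⟩ := hS2 n hn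
  have hcn : q ≤ Pool.Agent.H63.SG.cc n * q := by
    apply Nat.le_mul_of_pos_left
    unfold Pool.Agent.H63.SG.cc
    split_ifs <;> norm_num
  have hsq : ∀ m : ℤ, m ≤ n + x → m ≤ (n : ℤ) ^ 2 := by
    intro m hm
    have h5 : (500 : ℤ) ≤ n := by
      have : 500 ≤ n := by omega
      exact_mod_cast this
    have h6 : (x : ℤ) ≤ 2 * n := by
      have : x ≤ 2 * n := by omega
      exact_mod_cast this
    nlinarith
  refine ⟨m1, ?_, p, q, m5, m6, by rw [c_eq]; exact m3, m4, ?_⟩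
  · unfold Pool.Agent.H63.SG.cc at m2
    split_ifs at m2 with h <;> omega
  · rcases m9 with ⟨k1, k2⟩ | ⟨k1, k2⟩
    · refine Or.inl ⟨⟨_, k1, Int.toNat_of_nonneg (by omega)⟩, ap hδ (by omega) (by omega) (hsq _ (by omega)) k2⟩
    · refine Or.inr ⟨ap hδ (by omega) (by omega) (hsq _ (by omega)) k2, ⟨_, k1, Int.toNat_of_nonneg (by omega)⟩⟩

end Pool.Agent.Results.MP_9c53e9_nt.ThreePrimes

end
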