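import Mathlib
import Pool.Agent.H63.SG.Om
import Pool.Agent.H63.SG.PPU

/-!
# Sun's conjecture on shifted Goldbach and Lemoine representations: two primes and two almost primes, for a positive proportion
-/

set_option autoImplicit false

open Finset

noncomputable section

namespace Pool.Agent.Results.MP_9c53e9_nt.TwoPrimesPositiveProportion

/-- `c(n) = (3 - (-1)^n)/2`: `c(n) = 1` if `n` is even and `c(n) = 2` if `n` is odd. -/
def c (n : ℕ) : ℕ := if Even n then 1 else 2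

/-- `m` is positive, it has at most `r` prime factors (counted with multiplicity), and each of them is larger than `n ^ δ`. -/
def AlmostPrime (r : ℕ) (δ : ℝ) (n : ℕ) (m : ℤ) : Prop :=
  0 < m ∧ m.toNat.primeFactorsList.length ≤ r ∧ ∀ l : ℕ, l.Prime → l ∣ m.toNat → (n : ℝ) ^ δ < l

/-- `n = p + c(n) q` with primes `p > q` such that `p - d₁` and `q + d₂` are positive and have at most `r` prime factors,
all larger than `n ^ δ`. -/
def Represented (r : ℕ) (δ : ℝ) (d₁ d₂ : ℤ) (n : ℕ) : Prop :=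
  ∃ p q : ℕ, p.Prime ∧ q.Prime ∧ n = p + c n * q ∧ q < p ∧ AlmostPrime r δ n (p - d₁) ∧ AlmostPrime r δ n (q + d₂)

lemma c_eq (n : ℕ) : c n = Pool.Agent.H63.SG.cc n := by
  unfold c Pool.Agent.H63.SG.cc
  simp only [Nat.even_iff]

lemma ap {δ : ℝ} {n : ℕ} {m : ℤ} (hδ : 0 < δ) (hn : 1 < n) (h0 : 0 < m) (h1 : m ≤ n ^ 2)
    (h2 : ∀ l : ℕ, l.Prime → (l : ℤ) ∣ m → (n : ℝ) ^ δ < l) : AlmostPrime ⌊2 / δ⌋₊ δ n m := by
  have hn1 : (1 : ℝ) < n := by exact_mod_cast hn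
  have hab : ((m.toNat : ℕ) : ℤ) = m := Int.toNat_of_nonneg h0.le
  have h3 : ∀ l : ℕ, l.Prime → l ∣ m.toNat → (n : ℝ) ^ δ < l := by
    intro l hl hl2
    apply h2 l hl
    rw [← hab]
    exact Int.natCast_dvd_natCast.2 hl2
  refine ⟨h0, ?_, h3⟩
  refine Pool.Agent.H63.SG.Om_len hn1 hδ ?_ ?_ h3
  · omega
  · have h4 : m.toNat ≤ n ^ 2 := by
      have : ((m.toNat : ℕ) : ℤ) ≤ ((n ^ 2 : ℕ) : ℤ) := by
        rw [hab]
        exact_mod_cast h1
      exact_mod_cast this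
    exact_mod_cast h4

/-- There are absolute constants `r`, `δ > 0`, `β > 0`, `N`, `C` such that for all integers `d₁`, `d₂` divisible by `6` and
all `x ≥ N + C (|d₁| + |d₂|)` at least `β x` of the even `n ≤ x` and at least `β x` of the odd `n ≤ x` are of the form
`n = p + c(n) q` with primes `p > q` such that `p - d₁` and `q + d₂` are positive and have at most `r` prime factors, all
larger than `n ^ δ`. -/
theorem result : ∃ (r : ℕ) (δ β : ℝ) (N C : ℕ), 0 < δ ∧ 0 < β ∧ ∀ d₁ d₂ : ℤ, (6 : ℤ) ∣ d₁ → (6 : ℤ) ∣ d₂ →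
    ∀ x : ℕ, N + C * (d₁.natAbs + d₂.natAbs) ≤ x → ∀ b < 2,
      β * x ≤ ({n : ℕ | n ≤ x ∧ n % 2 = b ∧ Represented r δ d₁ d₂ n}.ncard : ℝ) := by
  obtain ⟨δ, β, hδ, hβ, N, H⟩ := Pool.Agent.H63.SG.PPU
  refine ⟨⌊2 / δ⌋₊, δ, β, N + 24, 28, hδ, hβ, fun d₁ d₂ h1 h2 x hx b hb => ?_⟩
  obtain ⟨S, hS1, hS2⟩ := H d₁ d₂ h1 h2 (d₁.natAbs + d₂.natAbs + 1) x (by omega) (b + 1) (by omega)
  refine hS1.trans ?_
  rw [Nat.cast_le, ← Set.ncard_coe_finset]
  apply Set.ncard_le_ncard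
  swap
  · exact (range (x + 1)).finite_toSet.subset (fun n hn => by
      rw [mem_coe, mem_range]
      exact Nat.lt_succ_of_le hn.1)
  intro n hn
  obtain ⟨m0, m1, m2, p, q, m3, m4, m5, m6, m7, m8⟩ := hS2 n hn
  have hcn : q ≤ Pool.Agent.H63.SG.cc n * q := by
    apply Nat.le_mul_of_pos_left
    unfold Pool.Agent.H63.SG.cc
    split_ifs <;> norm_num
  have h12 : 12 ≤ n := by omega
  have hd : d₁.natAbs + d₂.natAbs + 2 ≤ n := by omega
  have hsq : ∀ m : ℤ, m ≤ n + d₁.natAbs + d₂.natAbs → m ≤ (n : ℤ) ^ 2 := by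
    intro m hm
    obtain ⟨W, hW⟩ : ∃ W : ℕ, W = n * n := ⟨_, rfl⟩
    have h6 : n + d₁.natAbs + d₂.natAbs ≤ W := by
      rw [hW]
      nlinarith
    have h8 : (n : ℤ) ^ 2 = (W : ℤ) := by
      rw [hW]
      push_cast
      ring
    rw [h8]
    omega
  refine ⟨m1, ?_, p, q, m3, m4, by rw [c_eq]; exact m5, by omega, ?_, ?_⟩
  · unfold Pool.Agent.H63.SG.cc at m2
    split_ifs at m2 with h <;> omega
  · exact ap hδ (by omega) (by omega) (hsq _ (by omega)) (m8 1)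
  · exact ap hδ (by omega) (by omega) (hsq _ (by omega)) (m8 3)

end Pool.Agent.Results.MP_9c53e9_nt.TwoPrimesPositiveProportion

end
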